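import Mathlib
import Pool.Agent.Helper448.VanKampen

set_option autoImplicit false

namespace Pool.Agent.W620.K5

open Set Topology

/-- The one-skeleton of the four-dimensional simplex: the complete graph on five vertices. -/
def G : Set (Fin 5 → ℝ) := {x | (∀ i, 0 ≤ x i) ∧ ∑ i, x i = 1 ∧
  ∀ i j k, i ≠ j → i ≠ k → j ≠ k → x i * x j * x k = 0}

/-- The closed edge between two vertices. -/
def Ed (i j : Fin 5) : Set (Fin 5 → ℝ) := {x | (∀ k, 0 ≤ x k) ∧ ∑ k, x k = 1 ∧
  ∀ k, k ≠ i → k ≠ j → x k = 0}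

theorem ed_sub (i j : Fin 5) : Ed i j ⊆ G := by
  rintro x ⟨h1, h2, h3⟩
  refine ⟨h1, h2, ?_⟩
  intro a b c hab hac hbc
  by_cases ha : a = i ∨ a = j
  · by_cases hb : b = i ∨ b = j
    · have hc : c ≠ i ∧ c ≠ j := by
        rcases ha with rfl | rfl <;> rcases hb with rfl | rfl
        · exact absurd rfl hab
        · exact ⟨fun h => hac h.symm, fun h => hbc h.symm⟩
        · exact ⟨fun h => hbc h.symm, fun h => hac h.symm⟩
        · exact absurd rfl hab
      rw [h3 c hc.1 hc.2, mul_zero]
    · rw [not_or] at hb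
      rw [h3 b hb.1 hb.2, mul_zero, zero_mul]
  · rw [not_or] at ha
    rw [h3 a ha.1 ha.2, zero_mul, zero_mul]

theorem exists_ed {x : Fin 5 → ℝ} (hx : x ∈ G) : ∃ i j, i ≠ j ∧ x ∈ Ed i j := by
  obtain ⟨h1, h2, h3⟩ := hx
  obtain ⟨i, hi⟩ : ∃ i, x i ≠ 0 := by
    by_contra hcon
    push Not at hcon
    simp [hcon] at h2
  by_cases hj : ∃ j, j ≠ i ∧ x j ≠ 0
  · obtain ⟨j, hji, hj⟩ := hj
    refine ⟨i, j, hji.symm, h1, h2, ?_⟩
    intro k hki hkj
    have := h3 i j k hji.symm hki.symm hkj.symm
    rcases mul_eq_zero.1 this with h | h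
    · rcases mul_eq_zero.1 h with h | h
      · exact absurd h hi
      · exact absurd h hj
    · exact h
  · push Not at hj
    obtain ⟨j, hj'⟩ := exists_ne i
    exact ⟨i, j, hj'.symm, h1, h2, fun k hk _ => hj k hk⟩

theorem ed_convex (i j : Fin 5) : Convex ℝ (Ed i j) := by
  intro x hx y hy a b ha hb hab
  refine ⟨fun k => ?_, ?_, fun k h1 h2 => ?_⟩
  · have := hx.1 k
    have := hy.1 k
    simp only [Pi.add_apply, Pi.smul_apply, smul_eq_mul]
    positivity
  · simp only [Pi.add_apply, Pi.smul_apply, smul_eq_mul, Finset.sum_add_distrib, ← Finset.mul_sum]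
    rw [hx.2.1, hy.2.1, mul_one, mul_one, hab]
  · simp [hx.2.2 k h1 h2, hy.2.2 k h1 h2]

/-- The vertex `i`. -/
def vert (i : Fin 5) : Fin 5 → ℝ := Pi.single i 1

theorem vert_mem_left (i j : Fin 5) : vert i ∈ Ed i j := by
  refine ⟨fun k => ?_, ?_, fun k h1 h2 => ?_⟩
  · unfold vert
    by_cases h : k = i
    · subst h; simp
    · simp [h]
  · simp [vert]
  · simp [vert, h1]

theorem ed_comm (i j : Fin 5) : Ed i j = Ed j i := by
  ext x
  constructor
  · rintro ⟨h1, h2, h3⟩; exact ⟨h1, h2, fun k ha hb => h3 k hb ha⟩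
  · rintro ⟨h1, h2, h3⟩; exact ⟨h1, h2, fun k ha hb => h3 k hb ha⟩

theorem vert_mem_right (i j : Fin 5) : vert j ∈ Ed i j := by
  rw [ed_comm]; exact vert_mem_left j i

theorem ed_closed (i j : Fin 5) : IsClosed (Ed i j) := by
  have : Ed i j = (⋂ k, {x : Fin 5 → ℝ | 0 ≤ x k}) ∩ ({x | ∑ k, x k = 1} ∩
      ⋂ k, ⋂ (_ : k ≠ i), ⋂ (_ : k ≠ j), {x | x k = 0}) := by
    ext x
    simp [Ed]
  rw [this]
  refine (isClosed_iInter fun k => isClosed_le continuous_const (continuous_apply k)).inter
    ((isClosed_eq (by fun_prop) continuous_const).inter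
      (isClosed_iInter fun k => isClosed_iInter fun _ => isClosed_iInter fun _ =>
        isClosed_eq (continuous_apply k) continuous_const))

theorem g_eq : G = ⋃ i, ⋃ j, Ed i j := by
  ext x
  simp only [mem_iUnion]
  constructor
  · intro hx
    obtain ⟨i, j, _, h⟩ := exists_ed hx
    exact ⟨i, j, h⟩
  · rintro ⟨i, j, h⟩
    exact ed_sub i j h

theorem g_closed : IsClosed G := by
  rw [g_eq]
  exact isClosed_iUnion_of_finite fun i => isClosed_iUnion_of_finite fun j => ed_closed i j

theorem g_compact : IsCompact G :=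
  (isCompact_stdSimplex ℝ (Fin 5)).of_isClosed_subset g_closed (fun _ hx => ⟨hx.1, hx.2.1⟩)

theorem joined_vert {x : Fin 5 → ℝ} (hx : x ∈ G) : JoinedIn G x (vert 0) := by
  obtain ⟨i, j, _, h⟩ := exists_ed hx
  have h1 : JoinedIn G x (vert i) :=
    JoinedIn.of_segment_subset (((ed_convex i j).segment_subset h (vert_mem_left i j)).trans
      (ed_sub i j))
  have h2 : JoinedIn G (vert i) (vert 0) :=
    JoinedIn.of_segment_subset (((ed_convex i 0).segment_subset (vert_mem_left i 0)
      (vert_mem_right i 0)).trans (ed_sub i 0))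
  exact h1.trans h2

theorem g_pathConnected : IsPathConnected G :=
  ⟨vert 0, ed_sub 0 0 (vert_mem_left 0 0), fun {_} hy => (joined_vert hy).symm⟩

/-- Local connectedness. -/
theorem g_star {x : Fin 5 → ℝ} {r : ℝ} (hr : ∀ i, 0 < x i → r ≤ x i) (hx : x ∈ G) :
    StarConvex ℝ x (Metric.ball x r ∩ G) := by
  intro y hy a b ha hb hab
  have hpos : ∀ i, y i = 0 → x i = 0 := by
    intro i hi
    by_contra hne
    have h1 : 0 < x i := lt_of_le_of_ne (hx.1 i) (Ne.symm hne)
    have h2 : dist (y i) (x i) < r := (dist_le_pi_dist y x i).trans_lt hy.1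
    rw [hi, Real.dist_eq, zero_sub, abs_neg, abs_of_pos h1] at h2
    exact absurd (hr i h1) (not_le.2 h2)
  refine ⟨?_, ?_, ?_, ?_⟩
  · have h1 : x ∈ Metric.ball x r := by
      rw [Metric.mem_ball, dist_self]
      exact lt_of_le_of_lt dist_nonneg hy.1
    exact (convex_ball x r) h1 hy.1 ha hb hab
  · intro k
    have := hx.1 k
    have := hy.2.1 k
    simp only [Pi.add_apply, Pi.smul_apply, smul_eq_mul]
    positivity
  · simp only [Pi.add_apply, Pi.smul_apply, smul_eq_mul, Finset.sum_add_distrib, ← Finset.mul_sum]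
    rw [hx.2.1, hy.2.2.1, mul_one, mul_one, hab]
  · intro i j k hij hik hjk
    have h := hy.2.2.2 i j k hij hik hjk
    simp only [Pi.add_apply, Pi.smul_apply, smul_eq_mul]
    rcases mul_eq_zero.1 h with h | h
    · rcases mul_eq_zero.1 h with h | h
      · simp [h, hpos i h]
      · simp [h, hpos j h]
    · simp [h, hpos k h]

theorem exists_r (x : Fin 5 → ℝ) (ε : ℝ) (hε : 0 < ε) :
    ∃ r, 0 < r ∧ r ≤ ε ∧ ∀ i, 0 < x i → r ≤ x i := by
  have h : ∀ᶠ r in 𝓝[>] (0 : ℝ), ∀ i : Fin 5, 0 < x i → r ≤ x i := by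
    rw [Filter.eventually_all]
    intro i
    by_cases hi : 0 < x i
    · filter_upwards [Ioc_mem_nhdsGT hi] with r hr _
      exact hr.2
    · exact Filter.Eventually.of_forall fun r h => absurd h hi
  obtain ⟨r, h1, h2⟩ := (h.and (Ioc_mem_nhdsGT hε)).exists
  exact ⟨r, h2.1, h2.2, h1⟩

instance : CompactSpace G := isCompact_iff_compactSpace.1 g_compact

instance : PathConnectedSpace G := isPathConnected_iff_pathConnectedSpace.1 g_pathConnected

instance : LocallyConnectedSpace G := by
  rw [locallyConnectedSpace_iff_connected_subsets]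
  intro x U hU
  obtain ⟨ε, hε, hεU⟩ := Metric.mem_nhds_iff.1 hU
  obtain ⟨r, hr0, hrε, hr⟩ := exists_r x.1 ε hε
  refine ⟨Metric.ball x r, Metric.ball_mem_nhds x hr0, ?_, (Metric.ball_subset_ball hrε).trans hεU⟩
  rw [← Topology.IsInducing.subtypeVal.isPreconnected_image]
  have h1 : Subtype.val '' (Metric.ball x r) = Metric.ball x.1 r ∩ G := by
    ext y
    constructor
    · rintro ⟨z, hz, rfl⟩
      exact ⟨hz, z.2⟩
    · rintro ⟨h1, h2⟩
      exact ⟨⟨y, h2⟩, h1, rfl⟩
  rw [h1]
  exact ((g_star hr x.2).isPathConnected ⟨Metric.mem_ball_self hr0, x.2⟩).isConnected.isPreconnected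

instance : Nontrivial G := by
  refine ⟨⟨vert 0, ed_sub 0 0 (vert_mem_left 0 0)⟩, ⟨vert 1, ed_sub 1 1 (vert_mem_left 1 1)⟩, ?_⟩
  intro h
  have := congrFun (congrArg Subtype.val h) 0
  simp [vert] at this

/-- On the open edge the point is determined by one coordinate. -/
theorem det {x y : Fin 5 → ℝ} (hx : x ∈ G) (hy : y ∈ G) {i j : Fin 5} (hij : i ≠ j)
    (hxi : 0 < x i) (hxj : 0 < x j) (hyi : 0 < y i) (hyj : 0 < y j) (h : x j = y j) : x = y := by
  have key : ∀ z ∈ G, 0 < z i → 0 < z j → (∀ k, k ≠ i → k ≠ j → z k = 0) ∧ z i = 1 - z j := by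
    intro z hz h1 h2
    have h3 : ∀ k, k ≠ i → k ≠ j → z k = 0 := by
      intro k hk1 hk2
      have := hz.2.2 i j k hij hk1.symm hk2.symm
      rcases mul_eq_zero.1 this with h | h
      · rcases mul_eq_zero.1 h with h | h
        · exact absurd h h1.ne'
        · exact absurd h h2.ne'
      · exact h
    refine ⟨h3, ?_⟩
    have h4 := hz.2.1
    rw [← Finset.add_sum_erase _ _ (Finset.mem_univ i),
      ← Finset.add_sum_erase _ _ (Finset.mem_erase.2 ⟨hij.symm, Finset.mem_univ j⟩),
      Finset.sum_eq_zero] at h4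
    · linarith
    · intro k hk
      rw [Finset.mem_erase, Finset.mem_erase] at hk
      exact h3 k hk.2.1 hk.1
  obtain ⟨h1, h2⟩ := key x hx hxi hxj
  obtain ⟨h3, h4⟩ := key y hy hyi hyj
  funext k
  by_cases hki : k = i
  · subst hki; rw [h2, h4, h]
  · by_cases hkj : k = j
    · subst hkj; exact h
    · rw [h1 k hki hkj, h3 k hki hkj]

theorem sum_open {z : Fin 5 → ℝ} (hz : z ∈ G) {i j : Fin 5} (hij : i ≠ j)
    (h1 : 0 < z i) (h2 : 0 < z j) : z i = 1 - z j := by
  have h3 : ∀ k, k ≠ i → k ≠ j → z k = 0 := by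
    intro k hk1 hk2
    have := hz.2.2 i j k hij hk1.symm hk2.symm
    rcases mul_eq_zero.1 this with h | h
    · rcases mul_eq_zero.1 h with h | h
      · exact absurd h h1.ne'
      · exact absurd h h2.ne'
    · exact h
  have h4 := hz.2.1
  rw [← Finset.add_sum_erase _ _ (Finset.mem_univ i),
    ← Finset.add_sum_erase _ _ (Finset.mem_erase.2 ⟨hij.symm, Finset.mem_univ j⟩),
    Finset.sum_eq_zero] at h4
  · linarith
  · intro k hk
    rw [Finset.mem_erase, Finset.mem_erase] at hk
    exact h3 k hk.2.1 hk.1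

/-- Every connected subset with two points contains a nonempty open set. -/
theorem regular {L : Set G} (hL : IsPreconnected L) (hn : L.Nontrivial) :
    ∃ U : Set G, IsOpen U ∧ U.Nonempty ∧ U ⊆ L := by
  -- a point of `L` in an open edge
  obtain ⟨z, hzL, i, j, hij, hzi, hzj⟩ : ∃ z ∈ L, ∃ i j, i ≠ j ∧ 0 < z.1 i ∧ 0 < z.1 j := by
    by_contra hcon
    push Not at hcon
    have hsub : Subtype.val '' L ⊆ range vert := by
      rintro _ ⟨x, hx, rfl⟩
      obtain ⟨i, hi⟩ : ∃ i, x.1 i ≠ 0 := by
        by_contra hcon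
        push Not at hcon
        have := x.2.2.1
        simp [hcon] at this
      have hi' : 0 < x.1 i := lt_of_le_of_ne (x.2.1 i) (Ne.symm hi)
      have h0 : ∀ j, j ≠ i → x.1 j = 0 := fun j hj =>
        le_antisymm (hcon x hx i j hj.symm hi') (x.2.1 j)
      refine ⟨i, ?_⟩
      funext k
      by_cases hk : k = i
      · subst hk
        have := x.2.2.1
        rw [← Finset.add_sum_erase _ _ (Finset.mem_univ k), Finset.sum_eq_zero] at this
        · simp [vert]; linarith
        · intro l hl
          exact h0 l (Finset.ne_of_mem_erase hl)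
      · simp [vert, hk, h0 k hk]
    have hfin : L.Finite := (((finite_range vert).subset hsub).of_finite_image
      Subtype.val_injective.injOn)
    exact (hL.infinite_of_nontrivial hn) hfin
  obtain ⟨w, hwL, hwz⟩ := hn.exists_ne z
  set s := z.1 j with hs
  have hs1 : s < 1 := by have := sum_open z.2 hij hzi hzj; linarith
  let A : ℝ → ℝ → Set G := fun a b => {y | a < y.1 j ∧ 1 - b < y.1 i}
  have hAopen : ∀ a b, IsOpen (A a b) := fun a b =>
    (isOpen_lt continuous_const ((continuous_apply j).comp continuous_subtype_val)).inter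
      (isOpen_lt continuous_const ((continuous_apply i).comp continuous_subtype_val))
  have hAmem : ∀ a b, 0 < a → b < 1 → ∀ y ∈ A a b, 0 < y.1 i ∧ 0 < y.1 j ∧ a < y.1 j ∧ y.1 j < b := by
    intro a b ha hb y hy
    have h1 : 0 < y.1 j := ha.trans hy.1
    have h2 : 0 < y.1 i := by have := hy.2; linarith
    have h3 := sum_open y.2 hij h2 h1
    refine ⟨h2, h1, hy.1, ?_⟩
    have := hy.2
    linarith
  obtain ⟨ε, hε, hε1, hε2, hw⟩ : ∃ ε, 0 < ε ∧ 0 < s - ε ∧ s + ε < 1 ∧ w ∉ A (s - ε) (s + ε) := by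
    have hm : 0 < min s (1 - s) := lt_min hzj (by linarith)
    by_cases hw : 0 < w.1 i ∧ 0 < w.1 j
    · have hne : w.1 j ≠ s := by
        intro h
        exact hwz (Subtype.ext (det w.2 z.2 hij hw.1 hw.2 hzi hzj h))
      have hd : 0 < |w.1 j - s| := abs_pos.2 (sub_ne_zero.2 hne)
      refine ⟨min (min s (1 - s) / 2) |w.1 j - s|, lt_min (by linarith) hd, ?_, ?_, ?_⟩
      · have h1 := min_le_left (min s (1 - s) / 2) |w.1 j - s|
        have h2 := min_le_left s (1 - s)
        have : 0 < s := hzj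
        linarith
      · have h1 := min_le_left (min s (1 - s) / 2) |w.1 j - s|
        have h2 := min_le_right s (1 - s)
        linarith
      · intro hcon
        have h1 := min_le_left (min s (1 - s) / 2) |w.1 j - s|
        have h1' := min_le_right (min s (1 - s) / 2) |w.1 j - s|
        have h2 := min_le_left s (1 - s)
        have h2' := min_le_right s (1 - s)
        have hs0 : 0 < s := hzj
        obtain ⟨_, _, h5, h6⟩ := hAmem _ _ (by linarith) (by linarith) w hcon
        have : |w.1 j - s| < |w.1 j - s| := by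
          rw [abs_lt]
          constructor <;> linarith
        exact lt_irrefl _ this
    · refine ⟨min s (1 - s) / 2, by linarith, ?_, ?_, ?_⟩
      · have h2 := min_le_left s (1 - s)
        have : 0 < s := hzj
        linarith
      · have h2 := min_le_right s (1 - s)
        linarith
      · intro hcon
        have h2 := min_le_left s (1 - s)
        have h2' := min_le_right s (1 - s)
        have hs0 : 0 < s := hzj
        obtain ⟨h3, h4, _, _⟩ := hAmem _ _ (by linarith) (by linarith) w hcon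
        exact hw ⟨h3, h4⟩
  have key : (∀ a, s - ε < a → a < s → ∃ y ∈ L, 0 < y.1 i ∧ y.1 j = a) ∨
      (∀ b, s < b → b < s + ε → ∃ y ∈ L, 0 < y.1 i ∧ y.1 j = b) := by
    by_contra hcon
    rw [not_or] at hcon
    push Not at hcon
    obtain ⟨⟨a, ha1, ha2, ha3⟩, ⟨b, hb1, hb2, hb3⟩⟩ := hcon
    have ha0 : 0 < a := by linarith
    have hb0 : b < 1 := by linarith
    let C : Set G := {y | a ≤ y.1 j ∧ 1 - b ≤ y.1 i}
    have hCcl : IsClosed C :=
      (isClosed_le continuous_const ((continuous_apply j).comp continuous_subtype_val)).inter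
        (isClosed_le continuous_const ((continuous_apply i).comp continuous_subtype_val))
    have hcov : L ⊆ A a b ∪ Cᶜ := by
      intro y hy
      by_cases hyC : y ∈ C
      · left
        have hy1 : 0 < y.1 j := lt_of_lt_of_le ha0 hyC.1
        have hy2 : 0 < y.1 i := by have := hyC.2; linarith
        have hy3 := sum_open y.2 hij hy2 hy1
        constructor
        · exact lt_of_le_of_ne hyC.1 (fun h => ha3 y hy hy2 h.symm)
        · refine lt_of_le_of_ne hyC.2 (fun h => hb3 y hy hy2 (by linarith))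
      · right; exact hyC
    have hdisj : Disjoint (A a b) Cᶜ := by
      rw [disjoint_compl_right_iff_subset]
      intro y hy
      exact ⟨hy.1.le, hy.2.le⟩
    rcases hL.subset_or_subset (hAopen a b) hCcl.isOpen_compl hdisj hcov with h | h
    · apply hw
      have := h hwL
      exact ⟨by linarith [this.1], by linarith [this.2]⟩
    · have h1 := h hzL
      apply h1
      have h2 := sum_open z.2 hij hzi hzj
      exact ⟨by linarith, by linarith⟩
  rcases key with key | key
  · refine ⟨A (s - ε) s, hAopen _ _, ?_, ?_⟩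
    · obtain ⟨y, hyL, hy1, hy2⟩ := key (s - ε / 2) (by linarith) (by linarith)
      have h3 := sum_open y.2 hij hy1 (by rw [hy2]; linarith)
      exact ⟨y, by rw [mem_ofPred_eq]; constructor <;> linarith⟩
    · intro y hy
      obtain ⟨h1, h2, h3, h4⟩ := hAmem _ _ (by linarith) hs1 y hy
      obtain ⟨y', hy'L, hy'1, hy'2⟩ := key _ h3 h4
      have : y' = y := Subtype.ext (det y'.2 y.2 hij hy'1 (by rw [hy'2]; exact h2) h1 h2 hy'2)
      rwa [← this]
  · refine ⟨A s (s + ε), hAopen _ _, ?_, ?_⟩
    · obtain ⟨y, hyL, hy1, hy2⟩ := key (s + ε / 2) (by linarith) (by linarith)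
      have hs0 : 0 < s := hzj
      have h3 := sum_open y.2 hij hy1 (by rw [hy2]; linarith)
      exact ⟨y, by rw [mem_ofPred_eq]; constructor <;> linarith⟩
    · intro y hy
      obtain ⟨h1, h2, h3, h4⟩ := hAmem _ _ hzj (by linarith) y hy
      obtain ⟨y', hy'L, hy'1, hy'2⟩ := key _ h3 h4
      have : y' = y := Subtype.ext (det y'.2 y.2 hij hy'1 (by rw [hy'2]; exact h2) h1 h2 hy'2)
      rwa [← this]

/-- The edge as a subset of the space `G`. -/
def ed (i j : Fin 5) : Set G := Subtype.val ⁻¹' (Ed i j)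

theorem ed_isClosed (i j : Fin 5) : IsClosed (ed i j) := (ed_closed i j).preimage continuous_subtype_val

theorem ed_isConnected (i j : Fin 5) : IsConnected (ed i j) := by
  refine ⟨⟨⟨vert i, ed_sub i i (vert_mem_left i i)⟩, vert_mem_left i j⟩, ?_⟩
  rw [← Topology.IsInducing.subtypeVal.isPreconnected_image]
  have : Subtype.val '' (ed i j) = Ed i j := by
    rw [ed, Subtype.image_preimage_coe, inter_eq_right]
    exact ed_sub i j
  rw [this]
  exact (ed_convex i j).isPreconnected

theorem ed_disjoint {a b c d : Fin 5} (h1 : a ≠ c) (h2 : a ≠ d) (h3 : b ≠ c) (h4 : b ≠ d) :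
    Disjoint (ed a b) (ed c d) := by
  rw [disjoint_left]
  intro x hx hy
  have hx0 : ∀ k, x.1 k = 0 := by
    intro k
    by_cases hk : k = a ∨ k = b
    · rcases hk with rfl | rfl
      · exact hy.2.2 _ h1 h2
      · exact hy.2.2 _ h3 h4
    · rw [not_or] at hk
      exact hx.2.2 _ hk.1 hk.2
  have := x.2.2.1
  simp [hx0] at this

/-- The complete graph on five vertices is not a monotone image of a compact set in the plane. -/
theorem no_map (S : Set (EuclideanSpace ℝ (Fin 2))) (f : S → G) (hS : IsCompact S)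
    (hf : Continuous f) (hfib : ∀ y, IsConnected (f ⁻¹' {y})) : False := by
  have : CompactSpace S := isCompact_iff_compactSpace.1 hS
  have hsurj : Function.Surjective f := fun y => (hfib y).nonempty
  have hcl : IsClosedMap f := hf.isClosedMap
  have hq : Topology.IsQuotientMap f := hcl.isQuotientMap hf hsurj
  have hE : ∀ i j, IsConnected (f ⁻¹' (ed i j)) := fun i j =>
    hq.isCoinducing.isConnected_preimage_of_isClosed hfib (ed_isClosed i j) (ed_isConnected i j)
  let φ : S → ℂ := fun x => ⟨x.1 0, x.1 1⟩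
  have hφ : Continuous φ := by
    have : φ = fun x : S => ((x.1 0 : ℝ) : ℂ) + ((x.1 1 : ℝ) : ℂ) * Complex.I := by
      funext x
      apply Complex.ext <;> simp [φ]
    rw [this]
    fun_prop
  have hφi : Function.Injective φ := by
    intro x y h
    have h0 := congrArg Complex.re h
    have h1 := congrArg Complex.im h
    apply Subtype.ext
    ext k
    fin_cases k
    · exact h0
    · exact h1
  let K : Fin 5 → Fin 5 → Set ℂ := fun i j => φ '' (f ⁻¹' (ed i j))
  have hKc : ∀ i j, IsCompact (K i j) := fun i j =>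
    (((ed_isClosed i j).preimage hf).isCompact).image hφ
  have hKconn : ∀ i j, IsConnected (K i j) := fun i j => (hE i j).image _ hφ.continuousOn
  have hKd : ∀ a b c d : Fin 5, a ≠ c → a ≠ d → b ≠ c → b ≠ d → Disjoint (K a b) (K c d) := by
    intro a b c d h1 h2 h3 h4
    rw [Set.disjoint_image_iff hφi]
    exact (ed_disjoint h1 h2 h3 h4).preimage f
  have hev : ∀ᶠ δ in 𝓝[>] (0 : ℝ), ∀ a b c d : Fin 5, a ≠ c → a ≠ d → b ≠ c → b ≠ d →
      Disjoint (Metric.thickening δ (K a b)) (Metric.thickening δ (K c d)) := by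
    simp only [Filter.eventually_all]
    intro a b c d h1 h2 h3 h4
    obtain ⟨δ, hδ, hd⟩ := (hKd a b c d h1 h2 h3 h4).exists_thickenings (hKc a b) (hKc c d).isClosed
    filter_upwards [Ioc_mem_nhdsGT hδ] with δ' hδ'
    exact hd.mono (Metric.thickening_mono hδ'.2 _) (Metric.thickening_mono hδ'.2 _)
  obtain ⟨δ, hδ, hδ0⟩ := (hev.and self_mem_nhdsWithin).exists
  have hδ0' : (0 : ℝ) < δ := hδ0
  choose q hq' using fun i => hsurj ⟨vert i, ed_sub i i (vert_mem_left i i)⟩
  apply Pool.Agent.Helper448.VanKampen.k5_joined (fun i => φ (q i))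
    (fun a b => Metric.thickening δ (K a b))
  · intro a b _
    have hconn : IsConnected (Metric.thickening δ (K a b)) := by
      refine ⟨(hKconn a b).nonempty.mono (Metric.self_subset_thickening hδ0' _), ?_⟩
      rw [Metric.thickening_eq_biUnion_ball]
      obtain ⟨x0, hx0⟩ := (hKconn a b).nonempty
      refine isPreconnected_of_forall x0 ?_
      intro y hy
      rw [mem_iUnion₂] at hy
      obtain ⟨x, hx, hxy⟩ := hy
      refine ⟨K a b ∪ Metric.ball x δ, ?_, ?_, ?_, ?_⟩
      · apply union_subset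
        · intro z hz
          exact mem_iUnion₂.2 ⟨z, hz, Metric.mem_ball_self hδ0'⟩
        · intro z hz
          exact mem_iUnion₂.2 ⟨x, hx, hz⟩
      · left; exact hx0
      · right; exact hxy
      · exact (hKconn a b).isPreconnected.union x hx (Metric.mem_ball_self hδ0')
          (convex_ball x δ).isPreconnected
    have hpc := (Metric.isOpen_thickening.isConnected_iff_isPathConnected).1 hconn
    apply hpc.joinedIn
    · apply Metric.self_subset_thickening hδ0'
      refine ⟨q a, ?_, rfl⟩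
      change f (q a) ∈ ed a b
      rw [hq']
      exact vert_mem_left a b
    · apply Metric.self_subset_thickening hδ0'
      refine ⟨q b, ?_, rfl⟩
      change f (q b) ∈ ed a b
      rw [hq']
      exact vert_mem_right a b
  · intro a b c d _ _ h1 h2 h3 h4
    exact hδ a b c d h1 h2 h3 h4

end Pool.Agent.W620.K5
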